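import Pool.Agent.H7.NG.Stmts
import Pool.Agent.H29.HZ.RFG
import Pool.Agent.H3.GU.ZYG

/-!
Row RFX of board ng19: the reference graph (copy of the row RFT of me17, helper89).
-/

set_option autoImplicit false

open Finset

namespace Pool.NG7

open Pool.Agent.H23.KT Pool.Agent.H46.KW Pool.KQ Pool.GT7 Pool.GU7 Pool.HZ7 Pool.IA7

theorem rfx_card (p r a c : ℕ) (hr : r ≤ p + 1) (hc : c < p + 4) :
    (rfgc p r a c).card = a + if c < r + 1 then 1 else 0 := by
  have h1 : (rfgc p r a c).map Fin.valEmbedding =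
      (range ((p + 4) * a + (r + 1))).filter (fun w => w % (p + 4) = c) := by
    ext w
    rw [mem_map, mem_filter, mem_range]
    constructor
    · rintro ⟨u, hu, rfl⟩
      unfold rfgc at hu
      rw [mem_filter] at hu
      exact ⟨u.2, hu.2⟩
    · rintro ⟨h2, h3⟩
      refine ⟨⟨w, h2⟩, ?_, rfl⟩
      unfold rfgc
      rw [mem_filter]
      exact ⟨mem_univ _, h3⟩
  rw [← card_map Fin.valEmbedding, h1]
  have h2 := Nat.count_modEq_card ((p + 4) * a + (r + 1)) (show 0 < p + 4 by omega) c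
  rw [Nat.count_eq_card_filter_range, Nat.mul_add_div (show 0 < p + 4 by omega), Nat.mul_add_mod,
    Nat.div_eq_of_lt (show r + 1 < p + 4 by omega), Nat.mod_eq_of_lt (show r + 1 < p + 4 by omega),
    Nat.mod_eq_of_lt hc, add_zero] at h2
  rw [← h2]
  congr 1
  ext w
  rw [mem_filter, mem_filter]
  unfold Nat.ModEq
  rw [Nat.mod_eq_of_lt hc]

theorem rfx_compl (p r a c : ℕ) (hr : r ≤ p + 1) (hc : c < p + 4) :
    ((rfgc p r a c)ᶜ).card + (if c < r + 1 then 1 else 0) = (p + 3) * a + (r + 1) := by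
  have h1 := card_compl_add_card (rfgc p r a c)
  rw [rfx_card p r a c hr hc, Fintype.card_fin] at h1
  have h2 : (p + 4) * a = (p + 3) * a + a := by ring
  omega

theorem rfx_deg {p r q a : ℕ} (h : r + q = p + 3) (hq : 2 ≤ q) (hr : r ≤ p + 1)
    (v : Fin ((p + 4) * a + (r + 1))) :
    ((rfgR p r q a).neighborSet v).ncard ≤ (p + 3) * a + r := by
  have hm := Nat.mod_lt v.val (show 0 < p + 4 by omega)
  have h1 := rfx_compl p r a (v.val % (p + 4)) hr hm
  by_cases hs : v.val % (p + 4) < r + 1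
  · rw [if_pos hs] at h1
    have h2 : (rfgR p r q a).neighborSet v ⊆
        (((rfgc p r a (v.val % (p + 4)))ᶜ : Finset _) : Set (Fin ((p + 4) * a + (r + 1)))) := by
      intro w hw
      rw [mem_coe, mem_compl]
      unfold rfgc
      rw [mem_filter]
      rintro ⟨-, h3⟩
      exact hw.1 h3.symm
    have h3 := Set.ncard_le_ncard h2 (Set.toFinite _)
    rw [Set.ncard_coe_finset] at h3
    omega
  · rw [if_neg hs] at h1
    obtain ⟨t, ht, htv⟩ := rfgx_surj h hq v.2 (by omega)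
    obtain ⟨w0, hw1, hw2⟩ : ∃ w0 : Fin ((p + 4) * a + (r + 1)),
        w0.val % (p + 4) ≠ v.val % (p + 4) ∧ ¬ (rfgR p r q a).Adj v w0 := by
      rcases Nat.even_or_odd' t with ⟨i, rfl | rfl⟩
      · refine ⟨⟨rfgg p r q a i, rfgg_lt h hq i⟩, ?_, ?_⟩
        · rw [← htv]
          exact (rfg_fg h hq i).symm
        · intro hcon
          exact (hcon.2 i ht).1 ⟨htv.symm, rfl⟩
      · refine ⟨⟨rfgf p r q i, rfgf_lt h hq (by omega)⟩, ?_, ?_⟩
        · rw [← htv]
          exact rfgx_ne h hq _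
        · intro hcon
          refine (hcon.2 i (by omega)).2 ⟨rfl, ?_⟩
          unfold rfgg
          rw [if_pos ht]
          exact htv.symm
    have h2 : (rfgR p r q a).neighborSet v ⊆
        ((((rfgc p r a (v.val % (p + 4)))ᶜ).erase w0 : Finset _) :
          Set (Fin ((p + 4) * a + (r + 1)))) := by
      intro w hw
      rw [mem_coe, mem_erase, mem_compl]
      refine ⟨?_, ?_⟩
      · rintro rfl
        exact hw2 hw
      · unfold rfgc
        rw [mem_filter]
        rintro ⟨-, h3⟩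
        exact hw.1 h3.symm
    have h3 := Set.ncard_le_ncard h2 (Set.toFinite _)
    rw [Set.ncard_coe_finset, card_erase_of_mem] at h3
    · omega
    · rw [mem_compl]
      unfold rfgc
      rw [mem_filter]
      rintro ⟨-, h4⟩
      exact hw1 h4

theorem rfx_pair {p w r a : ℕ} (hr : r ≤ p + 1) (x y : Fin ((p + 4) * a + (r + 1)))
    (hxy : x.val % (p + 4) ≠ y.val % (p + 4)) :
    (({s : Finset (Fin ((p + 4) * a + (r + 1))) |
      (SimpleGraph.turanGraph ((p + 4) * a + (r + 1)) (p + 4)).IsNClique (w + 3) s ∧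
        x ∈ s ∧ y ∈ s}.ncard : ℕ) : ℝ) ≤ c1 p w * ((a : ℝ) + 1) ^ (w + 1) := by
  classical
  have hx := Nat.mod_lt x.val (show 0 < p + 4 by omega)
  have hy := Nat.mod_lt y.val (show 0 < p + 4 by omega)
  have hne : x ≠ y := by
    rintro rfl
    exact hxy rfl
  have hdis : Disjoint (rfgc p r a (x.val % (p + 4))) (rfgc p r a (y.val % (p + 4))) := by
    rw [Finset.disjoint_left]
    intro w h1 h2
    unfold rfgc at h1 h2
    rw [mem_filter] at h1 h2
    exact hxy (h1.2.symm.trans h2.2)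
  obtain ⟨W, hW⟩ : ∃ W, W = (rfgc p r a (x.val % (p + 4)) ∪ rfgc p r a (y.val % (p + 4)))ᶜ :=
    ⟨_, rfl⟩
  have hWm : ∀ z, z ∈ W ↔ z.val % (p + 4) ≠ x.val % (p + 4) ∧
      z.val % (p + 4) ≠ y.val % (p + 4) := by
    intro z
    rw [hW, mem_compl, mem_union]
    unfold rfgc
    rw [mem_filter, mem_filter]
    have := mem_univ z
    tauto
  have hWc : W.card ≤ (p + 2) * (a + 1) := by
    have h1 := card_compl_add_card (rfgc p r a (x.val % (p + 4)) ∪ rfgc p r a (y.val % (p + 4)))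
    rw [card_union_of_disjoint hdis, rfx_card p r a _ hr hx, rfx_card p r a _ hr hy,
      Fintype.card_fin, ← hW] at h1
    have h5 : (p + 4) * a = (p + 2) * a + a + a := by ring
    have h6 : (p + 2) * (a + 1) = (p + 2) * a + (p + 2) := by ring
    omega
  have hCB : CB (SimpleGraph.turanGraph ((p + 4) * a + (r + 1)) (p + 4)) W (p + 2) := by
    intro S hS hcl
    by_contra hcon
    have hfree := SimpleGraph.turanGraph_cliqueFree (n := (p + 4) * a + (r + 1)) (r := p + 4)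
      (by omega)
    have hyS : y ∉ S := fun h => ((hWm y).1 (hS h)).2 rfl
    have hxS : x ∉ insert y S := by
      rw [mem_insert, not_or]
      exact ⟨hne, fun h => ((hWm x).1 (hS h)).1 rfl⟩
    have h1 : (insert x (insert y S)).card = S.card + 2 := by
      rw [card_insert_of_notMem hxS, card_insert_of_notMem hyS]
    refine (hfree.mono (show p + 4 + 1 ≤ S.card + 2 by omega)) (insert x (insert y S)) ?_
    rw [SimpleGraph.isNClique_iff]
    refine ⟨?_, h1⟩
    rw [coe_insert, coe_insert, SimpleGraph.isClique_insert, SimpleGraph.isClique_insert]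
    refine ⟨⟨hcl, fun z hz _ => ?_⟩, fun z hz _ => ?_⟩
    · exact fun h => ((hWm z).1 (hS (mem_coe.mp hz))).2 h.symm
    · rcases hz with rfl | hz
      · exact hxy
      · exact fun h => ((hWm z).1 (hS (mem_coe.mp hz))).1 h.symm
  have hkc := ZYG_thm (SimpleGraph.turanGraph ((p + 4) * a + (r + 1)) (p + 4)) (p + 2) W hCB
    (w + 1)
  have hcard : {s : Finset (Fin ((p + 4) * a + (r + 1))) |
      (SimpleGraph.turanGraph ((p + 4) * a + (r + 1)) (p + 4)).IsNClique (w + 3) s ∧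
        x ∈ s ∧ y ∈ s}.ncard ≤
      kc (SimpleGraph.turanGraph ((p + 4) * a + (r + 1)) (p + 4)) W (w + 1) := by
    rw [kc_eq, ← Set.ncard_coe_finset]
    refine Set.ncard_le_ncard_of_injOn (fun s => (s.erase x).erase y) ?_ ?_ (Set.toFinite _)
    · rintro s ⟨hs, hxs, hys⟩
      rw [SimpleGraph.isNClique_iff] at hs
      rw [mem_coe, mem_clq]
      have hys' : y ∈ s.erase x := mem_erase.mpr ⟨hne.symm, hys⟩
      refine ⟨?_, ?_, ?_⟩
      · intro z hz
        rw [mem_erase, mem_erase] at hz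
        rw [hWm]
        exact ⟨fun h => hs.1 (mem_coe.mpr hz.2.2) (mem_coe.mpr hxs) hz.2.1 h,
          fun h => hs.1 (mem_coe.mpr hz.2.2) (mem_coe.mpr hys) hz.1 h⟩
      · change ((s.erase x).erase y).card = w + 1
        rw [card_erase_of_mem hys', card_erase_of_mem hxs, hs.2]
        omega
      · refine hs.1.subset ?_
        intro z hz
        exact mem_coe.2 (mem_of_mem_erase (mem_of_mem_erase (mem_coe.1 hz)))
    · rintro s ⟨_, hxs, hys⟩ t ⟨_, hxt, hyt⟩ hst
      simp only at hst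
      rw [← insert_erase hxs, ← insert_erase hxt,
        ← insert_erase (mem_erase.mpr ⟨hne.symm, hys⟩ : y ∈ s.erase x),
        ← insert_erase (mem_erase.mpr ⟨hne.symm, hyt⟩ : y ∈ t.erase x), hst]
  have h1 : (({s : Finset (Fin ((p + 4) * a + (r + 1))) |
      (SimpleGraph.turanGraph ((p + 4) * a + (r + 1)) (p + 4)).IsNClique (w + 3) s ∧
        x ∈ s ∧ y ∈ s}.ncard : ℕ) : ℝ) ≤
      kc (SimpleGraph.turanGraph ((p + 4) * a + (r + 1)) (p + 4)) W (w + 1) := by
    exact_mod_cast hcard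
  refine h1.trans (hkc.trans ?_)
  unfold c1
  refine mul_le_mul_of_nonneg_left ?_ (Nat.cast_nonneg _)
  refine pow_le_pow_left₀ (by positivity) ?_ _
  rw [div_le_iff₀ (by positivity)]
  have h2 : (W.card : ℝ) ≤ (((p + 2) * (a + 1) : ℕ) : ℝ) := by exact_mod_cast hWc
  push_cast at h2 ⊢
  linarith

theorem rfx_count {p w r q a : ℕ} (h : r + q = p + 3) (hq : 2 ≤ q) (hr : r ≤ p + 1) :
    (({s : Finset (Fin ((p + 4) * a + (r + 1))) |
      (SimpleGraph.turanGraph ((p + 4) * a + (r + 1)) (p + 4)).IsNClique (w + 3) s}.ncard : ℕ) :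
        ℝ) ≤
    (({s : Finset (Fin ((p + 4) * a + (r + 1))) | (rfgR p r q a).IsNClique (w + 3) s}.ncard : ℕ) :
      ℝ) + (((q * a + 1) / 2 : ℕ) : ℝ) * (c1 p w * ((a : ℝ) + 1) ^ (w + 1)) := by
  classical
  obtain ⟨B, hB⟩ : ∃ B : ℕ → Finset (Finset (Fin ((p + 4) * a + (r + 1)))), ∀ i, B i =
      univ.filter (fun s => (SimpleGraph.turanGraph ((p + 4) * a + (r + 1)) (p + 4)).IsNClique
        (w + 3) s ∧ ∃ x ∈ s, ∃ y ∈ s, x.val = rfgf p r q i ∧ y.val = rfgg p r q a i) :=
    ⟨_, fun _ => rfl⟩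
  have hBc : ∀ i ∈ range ((q * a + 1) / 2), ((B i).card : ℝ) ≤
      c1 p w * ((a : ℝ) + 1) ^ (w + 1) := by
    intro i hi
    rw [mem_range] at hi
    have hi2 : 2 * i < q * a := by omega
    have h1 := rfx_pair (w := w) hr
      (⟨rfgf p r q i, rfgf_lt h hq hi2⟩ : Fin ((p + 4) * a + (r + 1)))
      ⟨rfgg p r q a i, rfgg_lt h hq i⟩ (rfg_fg h hq i)
    have h2 : B i ⊆ univ.filter (fun s => (SimpleGraph.turanGraph ((p + 4) * a + (r + 1))
        (p + 4)).IsNClique (w + 3) s ∧ (⟨rfgf p r q i, rfgf_lt h hq hi2⟩ : Fin _) ∈ s ∧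
        (⟨rfgg p r q a i, rfgg_lt h hq i⟩ : Fin _) ∈ s) := by
      intro s hs
      rw [hB, mem_filter] at hs
      rw [mem_filter]
      obtain ⟨-, hs1, x, hx, y, hy, hxf, hyg⟩ := hs
      refine ⟨mem_univ _, hs1, ?_, ?_⟩
      · rwa [show (⟨rfgf p r q i, rfgf_lt h hq hi2⟩ : Fin _) = x from Fin.ext hxf.symm]
      · rwa [show (⟨rfgg p r q a i, rfgg_lt h hq i⟩ : Fin _) = y from Fin.ext hyg.symm]
    rw [rfg_ncard] at h1
    exact le_trans (by exact_mod_cast card_le_card h2) h1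
  rw [rfg_ncard, rfg_ncard]
  have hsub : univ.filter (fun s : Finset (Fin ((p + 4) * a + (r + 1))) =>
      (SimpleGraph.turanGraph ((p + 4) * a + (r + 1)) (p + 4)).IsNClique (w + 3) s) ⊆
      univ.filter (fun s : Finset (Fin ((p + 4) * a + (r + 1))) =>
        (rfgR p r q a).IsNClique (w + 3) s) ∪ (range ((q * a + 1) / 2)).biUnion B := by
    intro s hs
    rw [mem_filter] at hs
    have hs2 := hs.2
    rw [SimpleGraph.isNClique_iff] at hs2
    rw [mem_union, mem_filter, mem_biUnion]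
    by_cases hc : (rfgR p r q a).IsClique (s : Set _)
    · left
      refine ⟨mem_univ _, ?_⟩
      rw [SimpleGraph.isNClique_iff]
      exact ⟨hc, hs2.2⟩
    · right
      have h1 : ∃ u ∈ s, ∃ v ∈ s, u ≠ v ∧ ¬ (rfgR p r q a).Adj u v := by
        by_contra hcon
        push Not at hcon
        exact hc (fun u hu v hv hne => hcon u hu v hv hne)
      obtain ⟨u, hu, v, hv, hne, hna⟩ := h1
      have hT : u.val % (p + 4) ≠ v.val % (p + 4) :=
        hs2.1 (mem_coe.mpr hu) (mem_coe.mpr hv) hne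
      have h2 : ∃ i, 2 * i < q * a ∧ ((u.val = rfgf p r q i ∧ v.val = rfgg p r q a i) ∨
          (v.val = rfgf p r q i ∧ u.val = rfgg p r q a i)) := by
        by_contra hcon
        push Not at hcon
        refine hna ⟨hT, fun i hi => ⟨fun hh => (hcon i hi).1 hh.1 hh.2,
          fun hh => (hcon i hi).2 hh.1 hh.2⟩⟩
      obtain ⟨i, hi, h3⟩ := h2
      refine ⟨i, mem_range.mpr (by omega), ?_⟩
      rw [hB, mem_filter]
      refine ⟨mem_univ _, hs.2, ?_⟩
      rcases h3 with h3 | h3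
      · exact ⟨u, hu, v, hv, h3.1, h3.2⟩
      · exact ⟨v, hv, u, hu, h3.1, h3.2⟩
  have h1 := (card_le_card hsub).trans ((card_union_le _ _).trans
    (Nat.add_le_add_left card_biUnion_le _))
  have h2 : ∑ i ∈ range ((q * a + 1) / 2), ((B i).card : ℝ) ≤
      (((q * a + 1) / 2 : ℕ) : ℝ) * (c1 p w * ((a : ℝ) + 1) ^ (w + 1)) := by
    refine (sum_le_sum hBc).trans ?_
    rw [sum_const, card_range, nsmul_eq_mul]
  refine le_trans (Nat.cast_le.mpr h1) ?_
  push_cast
  push_cast at h2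
  linarith

theorem rfx_aux (hTCT : TCTStmt) (p w r a : ℕ) (hP : PrX p w r) (N : ℕ)
    (hN : N = (p + 4) * a + (r + 1)) : ∃ R : SimpleGraph (Fin N),
    (∀ v, (R.neighborSet v).ncard ≤ (p + 3) * a + r) ∧ R.CliqueFree (p + 5) ∧
    kt p w r a ≤ ({s : Finset (Fin N) | R.IsNClique (w + 3) s}.ncard : ℝ) := by
  subst hN
  obtain ⟨q, hq⟩ : ∃ q, r + q = p + 3 := ⟨p + 3 - r, by have := hP.rp; omega⟩
  have hr := hP.rp
  have hq2 : 2 ≤ q := by omega
  refine ⟨rfgR p r q a, rfx_deg hq hq2 hr, ?_, ?_⟩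
  · have h1 := SimpleGraph.turanGraph_cliqueFree (n := (p + 4) * a + (r + 1)) (r := p + 4)
      (by omega)
    exact h1.anti (rfgR_le p r q a)
  · have h1 := hTCT p (w + 3) a (r + 1) (by omega)
    have h2 := rfx_count (w := w) (a := a) hq hq2 hr
    have h3 : ((TT (p + 4) (w + 3) a (r + 1) : ℕ) : ℝ) ≤ (({s : Finset (Fin ((p + 4) * a + (r + 1))) |
        (SimpleGraph.turanGraph ((p + 4) * a + (r + 1)) (p + 4)).IsNClique (w + 3) s}.ncard : ℕ) :
        ℝ) := by exact_mod_cast h1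
    have hpr : p + 3 - r = q := by omega
    have h4 : (((q * a + 1) / 2 : ℕ) : ℝ) ≤ ((q : ℝ) * a + 1) / 2 := by
      have h5 : 2 * ((q * a + 1) / 2) ≤ q * a + 1 := Nat.mul_div_le _ _
      have h6 : ((2 * ((q * a + 1) / 2) : ℕ) : ℝ) ≤ ((q * a + 1 : ℕ) : ℝ) := Nat.cast_le.mpr h5
      push_cast at h6
      push_cast
      linarith
    have h7 : 0 ≤ c1 p w * ((a : ℝ) + 1) ^ (w + 1) := by
      unfold c1
      positivity
    have h8 := mul_le_mul_of_nonneg_right h4 h7
    unfold kt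
    rw [hpr]
    linarith

theorem RFX_thm (_hEST : ESTStmt) (hTCT : TCTStmt) : RFXStmt := by
  intro p w r a hP _
  exact rfx_aux hTCT p w r a hP _ (by ring)

end Pool.NG7
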